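import Pool.Agent.Helper77.HY.St
import Pool.Agent.Helper64.OF.St

/-!
# MP_7a9ddc_co, project OF4 (at most four odd faces): definitions

Plane maps `M : PMap V D` of project PM are used (multigraphs, parallel edges and faces of length two
are allowed). `M.r` is the rotation, `M.φ d = M.r (M.ι d)` the face permutation, `M.t d` the vertex at
which the dart `d` starts; `M.t (M.φ d) = M.t (M.ι d)` is the other end.
-/

set_option autoImplicit false

namespace Pool.Agent.Helper77.OF4

open Equiv Equiv.Perm Pool.Agent.Helper35.PM Pool.Agent.Helper77.HY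

/-- `O` has at most `k` elements and meets all cycles of odd length of `φ` -/
def OddO {D : Type} (φ : Perm D) (k : ℕ) (O : Finset D) : Prop :=
  O.card ≤ k ∧ ∀ d, Odd (Function.minimalPeriod φ d) → ∃ o ∈ O, φ.SameCycle o d

/-- the map is connected -/
def Conn {V D : Type} (M : PMap V D) : Prop :=
  ∀ v w : V, Relation.ReflTransGen (fun a b => ∃ d, M.t d = a ∧ M.t (M.ι d) = b) v w

/-- no loops and no triangles -/
def OG {V D : Type} (M : PMap V D) : Prop :=
  (∀ d, M.t (M.ι d) ≠ M.t d) ∧
  ∀ d e f, M.t (M.ι d) = M.t e → M.t (M.ι e) = M.t f → M.t (M.ι f) ≠ M.t d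

/-- there is a walk of length `n` from `a` to `b` -/
def Wk {V D : Type} (M : PMap V D) (n : ℕ) (a b : V) : Prop :=
  ∃ w : ℕ → V, w 0 = a ∧ w n = b ∧ ∀ i < n, ∃ d, M.t d = w i ∧ M.t (M.ι d) = w (i + 1)

/-- no corner can be folded: the ends `t d`, `t (φ (φ d))` of a corner at `t (φ d)` are equal or joined
by a walk of length three -/
def UF {V D : Type} (M : PMap V D) : Prop :=
  ∀ d, M.t d ≠ M.t (M.φ (M.φ d)) → Wk M 3 (M.t d) (M.t (M.φ (M.φ d)))

/-- a face visits every vertex at most once -/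
def FInj {V D : Type} (M : PMap V D) : Prop :=
  ∀ d d', M.φ.SameCycle d d' → M.t d = M.t d' → d = d'

/-- `W` can be merged into one vertex such that the resulting plane map (rotation `r'`) has at most `k`
odd faces, all of which contain a vertex of `W`. -/
def Cl {V D : Type} (M : PMap V D) (k : ℕ) (W : Set V) : Prop :=
  ∃ (r' : Perm D) (O : Finset D), Pl r' M.ι ∧ (∀ d, M.t d ∉ W → r' d = M.r d) ∧
    (∀ d d', M.t d ∈ W → M.t d' ∈ W → r'.SameCycle d d') ∧
    OddO (r' * M.inv.toPerm) k O ∧ ∀ o ∈ O, M.t o ∈ W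

theorem t_φ {V D : Type} (M : PMap V D) (d : D) : M.t (M.φ d) = M.t (M.ι d) := by
  rw [PMap.φ_apply, M.t_r]

/-! ### Folding a corner -/

section fold

variable {V D : Type} [DecidableEq V]

/-- identify the vertex `u'` with `u` -/
def pr (u u' : V) (h : u ≠ u') (v : V) : {v : V // v ≠ u'} :=
  if hv : v = u' then ⟨u, h⟩ else ⟨v, hv⟩

theorem pr_iff (u u' : V) (h : u ≠ u') (v w : V) :
    pr u u' h v = pr u u' h w ↔ v = w ∨ ((v = u ∨ v = u') ∧ (w = u ∨ w = u')) := by
  unfold pr
  by_cases hv : v = u' <;> by_cases hw : w = u'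
  · simp [hv, hw]
  · rw [dif_pos hv, dif_neg hw, Subtype.mk.injEq]
    constructor
    · intro h1
      exact Or.inr ⟨Or.inr hv, Or.inl h1.symm⟩
    · rintro (h1 | ⟨_, h1 | h1⟩)
      · exact absurd (h1 ▸ hv) hw
      · exact h1.symm
      · exact absurd h1 hw
  · rw [dif_neg hv, dif_pos hw, Subtype.mk.injEq]
    constructor
    · intro h1
      exact Or.inr ⟨Or.inl h1, Or.inr hw⟩
    · rintro (h1 | ⟨h1 | h1, _⟩)
      · exact absurd (h1.trans hw) hv
      · exact h1
      · exact absurd h1 hv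
  · rw [dif_neg hv, dif_neg hw, Subtype.mk.injEq]
    constructor
    · intro h1
      exact Or.inl h1
    · rintro (h1 | ⟨h1 | h1, h2 | h2⟩)
      · exact h1
      · exact h1.trans h2.symm
      · exact absurd h2 hw
      · exact absurd h1 hv
      · exact absurd h1 hv

theorem pr_surj (u u' : V) (h : u ≠ u') : Function.Surjective (pr u u' h) := by
  rintro ⟨v, hv⟩
  refine ⟨v, ?_⟩
  unfold pr
  rw [dif_neg hv]

variable [Finite D] [DecidableEq D]

/-- Fold the corner at the vertex `t (φ d)` between the darts `ι d` and `φ d`: identify `t d` and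
`t (φ (φ d))`. In the new map `d` and `φ d` form a face of length two. -/
def fold (M : PMap V D) (d : D) (h : M.t d ≠ M.t (M.φ (M.φ d))) :
    PMap {v : V // v ≠ M.t (M.φ (M.φ d))} D :=
  M.merge (M.r.symm d) (M.ι (M.φ d))
    (by
      have h1 : M.t (M.r.symm d) = M.t d := by
        conv_rhs => rw [← M.r.apply_symm_apply d, M.t_r]
      rw [h1, ← t_φ M (M.φ d)]
      exact h)
    (by
      have h1 : M.φ (M.ι (M.r.symm d)) = d := by
        rw [PMap.φ_apply, M.inv, M.r.apply_symm_apply]
      rw [M.inv, ← sameCycle_apply_left, h1, sameCycle_apply_right])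
    (pr (M.t d) (M.t (M.φ (M.φ d))) h)
    (by
      have h1 : M.t (M.r.symm d) = M.t d := by
        conv_rhs => rw [← M.r.apply_symm_apply d, M.t_r]
      intro v w
      rw [h1, ← t_φ M (M.φ d)]
      exact pr_iff _ _ h v w)

theorem fold_ι (M : PMap V D) (d : D) (h : M.t d ≠ M.t (M.φ (M.φ d))) :
    (fold M d h).ι = M.ι := rfl

theorem fold_r (M : PMap V D) (d : D) (h : M.t d ≠ M.t (M.φ (M.φ d))) :
    (fold M d h).r = M.r * swap (M.r.symm d) (M.ι (M.φ d)) := rfl

theorem fold_t (M : PMap V D) (d : D) (h : M.t d ≠ M.t (M.φ (M.φ d))) (e : D) :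
    (fold M d h).t e = pr (M.t d) (M.t (M.φ (M.φ d))) h (M.t e) := rfl

end fold

end Pool.Agent.Helper77.OF4
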