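import Pool.Agent.Helper77.OF4.St
import Pool.Agent.Helper77.HY.Main
import Pool.Agent.Helper35.PM.All
import Pool.Agent.Helper64.OF.M_Two
import Pool.Agent.Helper64.OF.M_PP
import Pool.Agent.Helper36.OF4.P1
import Pool.Agent.Helper60.OF4.P2
import Pool.Agent.Helper84.OF4.FO
import Pool.Agent.Helper80.OF4.FC
import Pool.Agent.Helper16.OF4.FT
import Pool.Agent.Helper40.OF4.SP
import Pool.Agent.Helper51.OF4.LI
import Pool.Agent.Helper78.OF4.FJ
import Pool.Agent.Helper42.OF4.CR
import Pool.Agent.Helper76.OF4.KZ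
import Pool.Agent.Helper28.OF4.BC
import Pool.Agent.Helper98.OF4.BA
import Pool.Agent.Helper79.OF4.SV
import Pool.Agent.Helper47.OF4.EX
import Pool.Agent.Helper6.OF4.CH
import Pool.Agent.Helper15.OF4.C1
import Pool.Agent.Helper13.OF4.C2
import Pool.Agent.Helper72.OF4.C3
import Pool.Agent.Helper2.OF4.CO
import Pool.Agent.Helper91.OF4.FI

/-!
# MP_7a9ddc_co, project OF4: assembly
-/

set_option autoImplicit false

namespace Pool.Agent.Helper77.OF4

open Pool.Agent.Helper77.HY

theorem stP1 : StP1 := Pool.Agent.Helper36.OF4.P1.main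
theorem stP2 : StP2 := Pool.Agent.Helper60.OF4.P2.main
theorem stFo : StFo := Pool.Agent.Helper84.OF4.FO.main stP2
theorem stFc : StFc := Pool.Agent.Helper80.OF4.FC.main
theorem stFt : StFt := Pool.Agent.Helper16.OF4.FT.main
theorem stSp : StSp := Pool.Agent.Helper40.OF4.SP.main Pool.Agent.Helper64.OF.hTwo
theorem stLi : StLi := Pool.Agent.Helper51.OF4.LI.main stSp stP1
theorem stFj : StFj := Pool.Agent.Helper78.OF4.FJ.main Pool.Agent.Helper35.PM.stCutV
theorem stCr : StCr := Pool.Agent.Helper42.OF4.CR.main Pool.Agent.Helper35.PM.stSep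
theorem stKz : StKz := Pool.Agent.Helper76.OF4.KZ.main stCr
theorem stBc : StBc := Pool.Agent.Helper28.OF4.BC.main
theorem stBa : StBa := Pool.Agent.Helper98.OF4.BA.main stBc
theorem stSv : StSv := Pool.Agent.Helper79.OF4.SV.main
theorem stEx : StEx := Pool.Agent.Helper47.OF4.EX.main stFo stFc stFt stLi stFj stKz stBa stSv
theorem stCh : StCh := Pool.Agent.Helper6.OF4.CH.main Pool.Agent.Helper64.OF.hPP
theorem stC1 : StC1 := Pool.Agent.Helper15.OF4.C1.main
theorem stC2 : StC2 := Pool.Agent.Helper13.OF4.C2.main Pool.Agent.Helper35.PM.stEul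
theorem stC3 : StC3 := Pool.Agent.Helper72.OF4.C3.main stC2 stEub stSub stCnt
theorem stCo : StCo := Pool.Agent.Helper2.OF4.CO.main stLc
theorem stFi : StFi := Pool.Agent.Helper91.OF4.FI.main stEx stCh stC1 stC3 stCo

end Pool.Agent.Helper77.OF4
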