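import Pool.Agent.Helper77.OF4.Base

/-!
# MP_7a9ddc_co, project OF4: statements of the modules

THEOREM (OF4). Every connected triangle-free plane graph `G` with at most four odd faces is
`{1,2}`-choosable.

PROOF. (EX) There are an independent set `W` and a way to merge `W` into one vertex in the plane such
that the plane map `M'` obtained has at most four odd faces, all of which contain the merged vertex
(`Cl`). This is proved for plane maps by induction on the number of vertices: if a corner can be folded
without creating a triangle, fold it, and lift `W` (modules FO, FC, FT, LI). If no corner can be folded,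
all faces have length two or five (FJ, KZ, with the crossing lemma CR), and `W` with one or two
elements can be found directly (BC, BA, SV). (CH) The dual potential gives a function `q` on the darts
which changes along every edge, and along the rotation of `M'` only at four places, all at the
merged vertex. So `G - W` is bipartite, and (C1) for a set `R` of vertices outside `W` the simple plane
graph on `R` and the merged vertex has at most four odd faces; by Euler's formula (C2, C3)
`e(R) + |R ∩ N(W)| ≤ 2 |R|`. (CO) Give `W` the colours of `A`; the rest is coloured by StLc of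
project HY (orientation and kernels).

All modules are independent: earlier statements may be used as hypotheses. In all statements about a
map `M` the type `D` of darts is finite. All the statements of project PM (St.lean) may be used as
hypotheses or cited from `Pool.Agent.Helper35.PM.All` (stSep, stCutV, stEul, ...), those of project HY
from `Pool.Agent.Helper77.HY.Main` (stCnt, stEub, stSub, stLc, ...).
-/

set_option autoImplicit false

namespace Pool.Agent.Helper77.OF4

open Equiv Equiv.Perm Pool.Agent.Helper35.PM Pool.Agent.Helper77.HY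

/-! ### Module P1 (merging two cycles of a permutation; 60-100 lines)

PROOF. Put `ψ = φ * swap p q`. `φ.SameCycle e e'` implies `ψ.SameCycle e e'`
(`Pool.Agent.Helper35.PM.SameCycle.mul_swap`, in PM/Cyc.lean) and `ψ.SameCycle p q`
(`sameCycle_mul_swap`). If `d` is in the `φ`-cycle neither of `p` nor of `q` then `ψ` and `φ` agree on the
`φ`-cycle of `d`, so `minimalPeriod ψ d = minimalPeriod φ d` and the hypothesis gives `o`. Otherwise
the `ψ`-cycle of `d` is the disjoint union of the `φ`-cycles of `p` and of `q` (it is contained in it since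
`ψ` maps this union to itself), so one of the two `φ`-cycles has an odd number of elements (the minimal
period is the number of elements of the cycle), and the hypothesis gives `o` in it. -/
def StP1 : Prop :=
  ∀ (D : Type) [Finite D] [DecidableEq D] (φ : Perm D) (p q : D) (O : Finset D),
    ¬ φ.SameCycle p q →
    (∀ d, Odd (Function.minimalPeriod φ d) → ∃ o ∈ O, φ.SameCycle o d) →
    ∀ d, Odd (Function.minimalPeriod (φ * swap p q) d) → ∃ o ∈ O, (φ * swap p q).SameCycle o d

/-! ### Module P2 (cutting off a cycle of length two; 60-100 lines)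

PROOF. Put `ψ = φ * swap (φ⁻¹ d) (φ d)`: `ψ (φ d) = d`, `ψ d = φ d` (`d` is different from `φ⁻¹ d` and
from `φ d`), `ψ (φ⁻¹ d) = φ (φ d)`, and `ψ e = φ e` for all other `e`. So the elements `d`, `φ d` form a
`ψ`-cycle, and the other elements of the `φ`-cycle of `d` form one `ψ`-cycle, with two elements less;
the other cycles are unchanged. (First show: if `e`, `e'` are different from `d`, `φ d` then
`φ.SameCycle e e'` iff `ψ.SameCycle e e'`; the minimal period is the number of elements of the
cycle.) -/
def StP2 : Prop :=
  ∀ (D : Type) [Finite D] [DecidableEq D] (φ : Perm D) (d : D), φ d ≠ d → φ (φ d) ≠ d →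
    let ψ := φ * swap (φ.symm d) (φ d)
    ψ d = φ d ∧ ψ (φ d) = d ∧
    (∀ e e', e ≠ d → e ≠ φ d → e' ≠ d → e' ≠ φ d → φ.SameCycle e e' → ψ.SameCycle e e') ∧
    ∀ e, e ≠ d → e ≠ φ d → (Odd (Function.minimalPeriod ψ e) ↔ Odd (Function.minimalPeriod φ e))

/-! ### Module FO (odd faces after a folding; 50-80 lines)

PROOF. From `StP2` for `M.φ`: `(fold M d h).φ = M.φ * swap (M.φ.symm d) (M.φ d)`, because
`(fold M d h).φ e = M.r (swap a b (M.ι e))` with `a = M.r.symm d = M.ι (M.φ.symm d)`,
`b = M.ι (M.φ d)`. (`M.φ d ≠ d` since there are no loops: `t (φ d) = t (ι d)`; `M.φ (M.φ d) ≠ d` by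
`h`.) `O'` is the image of `O` under the map which sends `d` and `M.φ d` to `M.φ (M.φ (M.φ d))` if
this is different from `d`, and every other element to itself. HINT: if the face of `d` is odd it has
at least three elements `d, φ d, φ (φ d)`; simply send `d` and `φ d` to `φ (φ d)`, which is different from
`d` and `φ d`. The second claim: an odd face of the folded map is not the face `{d, φ d}`. -/
def StFo : Prop :=
  ∀ (V D : Type) [Finite D] [DecidableEq V] [DecidableEq D] (M : PMap V D) (d : D)
    (h : M.t d ≠ M.t (M.φ (M.φ d))) (k : ℕ), OG M →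
    ((∃ O, OddO M.φ k O) → ∃ O, OddO (fold M d h).φ k O) ∧
    (∀ e, Odd (Function.minimalPeriod (fold M d h).φ e) → e ≠ d ∧ e ≠ M.φ d ∧
      Odd (Function.minimalPeriod M.φ e)) ∧
    ∀ e e', e ≠ d → e ≠ M.φ d → e' ≠ d → e' ≠ M.φ d → M.φ.SameCycle e e' →
      (fold M d h).φ.SameCycle e e'

/-- Module FC (a folded map is connected; 20-40 lines): `pr` is surjective and maps edges to edges. -/
def StFc : Prop :=
  ∀ (V D : Type) [Finite D] [DecidableEq V] [DecidableEq D] (M : PMap V D) (d : D)
    (h : M.t d ≠ M.t (M.φ (M.φ d))), Conn M → Conn (fold M d h)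

/-! ### Module FT (folding without creating triangles; 60-100 lines)

PROOF. Put `u = t d`, `u' = t (φ (φ d))`; the darts `d`: `u → z` and `φ d`: `z → u'`. By `pr_iff` equality of
the images means equality or both in `{u, u'}`. A loop of the folded map is a loop of `M`, or an edge
between `u` and `u'`, which forms a triangle with `d`, `φ d` (use `M.ι` for the other direction).
A triangle `e1, e2, e3` of the folded map: if the ends match in `M` in all three places it is a triangle
of `M`. If there is exactly one place where they do not match, `e1, e2, e3` in suitable cyclic order is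
a walk of length three between `u` and `u'` (in one of the two directions; reverse it with `M.ι` if
necessary), contradiction. If there are at least two such places, one of the `e_i` has both ends in
`{u, u'}`: a loop or an edge between `u` and `u'`. -/
def StFt : Prop :=
  ∀ (V D : Type) [Finite D] [DecidableEq V] [DecidableEq D] (M : PMap V D) (d : D)
    (h : M.t d ≠ M.t (M.φ (M.φ d))), OG M → ¬ Wk M 3 (M.t d) (M.t (M.φ (M.φ d))) →
    OG (fold M d h)

/-! ### Module SP (a face which visits a vertex twice; 60-100 lines)

PROOF. As in `Pool.Agent.Helper35.PM.M_CUTV` (PM/M_CUTV.lean; replace `M.r`, `M.φ` by `r`,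
`r * hι.toPerm`): there are `s`, `y` such that `c e = y e + s e` satisfies `c (ι e) = c e` and
`c (r e) = c e` for `e ≠ a`, `e ≠ b`. Moreover `c (r a) = c a + 1` and `c (r b) = c b + 1`:
`y (r a) = y a + s a + s (ι a)`, `s (ι a) = s (r b) = 1`, `s (r a) = 0`, and similarly for `b`. By module TWO
of helper64 (`Pool.Agent.Helper64.OF.M_Two`, statement `StTwo` in Helper64/OF/St.lean; or walk from
`r a` to `b` along the rotation) `c a = c b + 1`. So `c ((r * swap a b) a) = c (r b) = c b + 1 = c a`, and the
same for `b`. -/
def StSp : Prop :=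
  ∀ (D : Type) [Finite D] [DecidableEq D] (r : Perm D) (ι : D → D) (hι : Function.Involutive ι),
    Pl r ι → ∀ a b : D, a ≠ b → r.SameCycle a b → (r * hι.toPerm).SameCycle (ι a) (ι b) →
    ∃ c : D → ZMod 2, (∀ e, c (ι e) = c e) ∧ (∀ e, c ((r * swap a b) e) = c e) ∧ c a ≠ c b

/-! ### Module LI (lifting; 100-150 lines)

PROOF. From `StSp`, `StP1`. Put `a = M.r.symm d`, `b = M.ι (M.φ d)`, `M1 = fold M d h`, so
`M1.r = M.r * swap a b`, `M.t a = M.t d = u`, `M.t b = u'`, and let `r'`, `O` be the data of `Cl M1 k W1`.
The darts `e` with `M.t e ∈ π ⁻¹' W1` are those with `M1.t e ∈ W1` (call them `W`-darts).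
CASE `M1.t a ∈ W1` (then also `M1.t b ∈ W1`, the same vertex): take the same `r'`, `O`. For
`M1.t e ∉ W1`: `e ≠ a, b`, so `r' e = M1.r e = M.r e`.
CASE `M1.t a ∉ W1`: take `r'' = r' * swap a b` and the same `O`. If `e` is not a `W`-dart then
`swap a b e` is not a `W`-dart and `r'' e = r' (swap a b e) = M1.r (swap a b e) = M.r e`. `r'` maps the
complement of the `W`-darts into itself (it agrees with `M1.r` there), hence (finiteness) also the
`W`-darts into themselves; there `r''` and `r'` agree, so `W`-darts are in the same cycle of `r''`.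
`Pl r'' ι` by `Pl.split` (PM/Base.lean), because `r'.SameCycle a b` (`M1.trans`, and `r'` and `M1.r`
agree on the darts at `M1.t a ∉ W1`; their powers at `a` agree). Odd faces:
`r'' * ι = (r' * ι) * swap (ι a) (ι b)`, so by `StP1` it remains to show that `ι a`, `ι b` are in different
cycles of `r' * ι`. Otherwise `StSp` (for `r'`, `a`, `b`) gives `c` which is constant along `ι` and `r''` with
`c a ≠ c b`. Then `c e = c e'` whenever `M.t e = M.t e'` (if it is in `π ⁻¹' W1`: same cycle of `r''`;
otherwise `r''` and `M.r` agree at this vertex), so by connectedness of `M` `c` is constant: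
contradiction. -/
def StLi : Prop :=
  ∀ (V D : Type) [Finite D] [DecidableEq V] [DecidableEq D] (M : PMap V D) (d : D)
    (h : M.t d ≠ M.t (M.φ (M.φ d))) (k : ℕ) (W1 : Set {v : V // v ≠ M.t (M.φ (M.φ d))}), Conn M →
    Cl (fold M d h) k W1 → Cl M k (pr (M.t d) (M.t (M.φ (M.φ d))) h ⁻¹' W1)

/-! ### Module FJ (if no corner can be folded then faces visit vertices once; 60-100 lines)

PROOF. From `StCutV` of PM. Suppose `d ≠ d'` are in one face and start at the same vertex `v`. `StCutV`
gives `c` with `c (ι e) = c e`, `c (r e) = c e` if `t e ≠ v`, `c d ≠ c d'`. Since `d`, `d'` are in the same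
cycle of `M.r` there is a dart `e` at `v` with `c (r e) ≠ c e`. Put `w = t (ι e)`, `w' = t (ι (r e))`; both
are different from `v` (no loops). `w ≠ w'`, since `c` is constant on the darts at a vertex different
from `v`, and `c (ι e) ≠ c (ι (r e))`. `UF` for the dart `ι e` (`φ (ι e) = r e`) gives a walk `w, x, y, w'` of
length three with darts `f0, f1, f2`. If `x ≠ v` and `y ≠ v` then `c` is constant along the walk (at `w`:
`ι e`, `f0`; at `x`: `ι f0`, `f1`; at `y`: `ι f1`, `f2`; at `w'`: `ι f2`, `ι (r e)`), contradiction. If `x = v`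
then `f1, f2, ι (r e)` is a triangle (`v → y → w' → v`), if `y = v` then `f0, f1, e` is a triangle. -/
def StFj : Prop :=
  ∀ (V D : Type) [Finite D] (M : PMap V D), OG M → UF M → FInj M

/-! ### Module CR (crossing walks; 100-140 lines)

PROOF. From `StSep` of PM. Suppose that the walks `w`, `w'` are disjoint. Choose darts `A i` (`i < m`) with
`t (A i) = w i`, `t (ι (A i)) = w (i + 1)` and put
`x e = ∑ i < m, ((if e = A i then 1 else 0) + (if e = ι (A i) then 1 else 0))` in `ZMod 2`. Then
`x (ι e) = x e`, `x e = 0` if `t e` is not on the walk `w`, and the sum of `x` over the darts at `v` is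
`∑ i < m, ([w i = v] + [w (i + 1) = v]) = [w 0 = v] + [w m = v]`. Apply `StSep` with `d1 = d`,
`d3 = φ^k d` (different vertices by `FInj`): it gives `y`. The function `y` is constant on the darts at
every vertex `v` not on `w` (there `x = 0` and `r e ≠ d1, d3`), and `y (ι e) = y e` for these darts; so it is
constant along the walk `w'`. But `y (φ^j d) = 0` (`(φ^i) d ∉ {d1, d3}` for `0 < i ≤ j`) and
`y (φ^l d) = y (φ^(l-k) d3) = 1` (`(φ^i) d ∉ {d1, d3}` for `k < i ≤ l`), contradiction. -/
def StCr : Prop :=
  ∀ (V D : Type) [Finite D] (M : PMap V D) (d : D) (j k l : ℕ), FInj M → 0 < j → j < k → k < l →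
    l < Function.minimalPeriod M.φ d → ∀ (m m' : ℕ) (w w' : ℕ → V),
    w 0 = M.t d → w m = M.t ((M.φ ^ k) d) →
    (∀ i < m, ∃ e, M.t e = w i ∧ M.t (M.ι e) = w (i + 1)) →
    w' 0 = M.t ((M.φ ^ j) d) → w' m' = M.t ((M.φ ^ l) d) →
    (∀ i < m', ∃ e, M.t e = w' i ∧ M.t (M.ι e) = w' (i + 1)) →
    ∃ i ≤ m, ∃ i' ≤ m', w i = w' i'

/-! ### Module KZ (if no corner can be folded then faces have length two or five; 120-200 lines)

PROOF (Klostermeyer and Zhang). Lemmas: walks can be concatenated (`Wk m a b`, `Wk n b c` give
`Wk (m + n) a c`) and reversed; initial and final pieces of walks are walks; by `OG` there is no closed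
walk of length `1` or `3` (`¬ Wk 1 a a`, `¬ Wk 3 a a`). Let `n = minimalPeriod φ d`, `v i = t (φ^i d)`; these
are `n` different vertices for `i < n` (`FInj`), `v (i + n) = v i`, `v i`, `v (i+1)` are joined by an edge.
`n ≠ 0` (finite), `n ≠ 1` (loop), `n ≠ 3` (`Wk 3 (v 0) (v 0)`). Suppose `n = 4` or `n ≥ 6`. The same
reasoning applies to every dart `φ^i d` in place of `d`, so it suffices to treat the indices `0, 1, 2, ...`.
STEP 1. `UF` gives `P : Wk 3 (v 0) (v 2)` and `P' : Wk 3 (v 1) (v 3)`; by `StCr` (`j, k, l = 1, 2, 3`) they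
have a common vertex `x = P a = P' b`, `a, b ≤ 3`. Closed walks: `v 1 →(b) x →(a) v 0 → v 1` of length
`a + b + 1`; `x →(3-a) v 2 → v 1 →(b) x` of length `4 - a + b`; `x →(3-a) v 2 → v 3 →(3-b) x` of length
`7 - a - b`; `v 0 →(a) x →(3-b) v 3 → v 2 → v 1 → v 0` of length `6 + a - b`; if `n = 4` also
`v 0 →(a) x →(3-b) v 3 → v 0` of length `4 + a - b`. None of them is `1` or `3`: if `a + b` is even, then
`a + b ≥ 4` and `a + b ≤ 2`, contradiction. So `a + b` is odd, `b ≥ a + 1`, and `b ≤ a + 1` (`6 + a - b ≠ 3`).
If `n = 4` then `4 + a - b = 3`, contradiction. Now `v 0 →(a) x →(3-b) v 3` is a walk of length two: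
`Wk 2 (v 0) (v 3)`. STEP 2 (`n ≥ 6`). So `Q : Wk 2 (v 0) (v 3)` and `Q' : Wk 2 (v 1) (v 4)`; by `StCr`
(`j, k, l = 1, 3, 4`) `x = Q a = Q' b`, `a, b ≤ 2`. Closed walks `v 1 →(b) x →(a) v 0 → v 1` of length
`a + b + 1`, `x →(2-a) v 3 → v 4 →(2-b) x` of length `5 - a - b`: so `a + b` is odd (if it is even,
`a + b = 4` and `5 - a - b = 1`). `v 1 →(b) x →(2-a) v 3 → v 2 → v 1` of length `4 + b - a`, so not
`b = a - 1`; hence `b = a + 1`, and `v 0 →(a) x →(2-b) v 4` is a walk of length one:
`Wk 1 (v 0) (v 4)`. STEP 3. `n = 6`: `v 0 → v 4 → v 5 → v 0` is a closed walk of length three. `n ≥ 7`: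
`Wk 1 (v 0) (v 4)` and `Wk 1 (v 1) (v 5)` have a common vertex by `StCr` (`j, k, l = 1, 4, 5`), so
`{v 0, v 4}` and `{v 1, v 5}` are not disjoint, contradiction. -/
def StKz : Prop :=
  ∀ (V D : Type) [Finite D] (M : PMap V D), OG M → UF M → FInj M →
    ∀ d, Function.minimalPeriod M.φ d = 2 ∨ Function.minimalPeriod M.φ d = 5

/-! ### Module BC (the two pentagons at an edge; 80-120 lines)

All faces have length two or five; odd means five. Parallel edges form bundles separated by faces of
length two. PROOF. Let `v = t e`, `w = t (ι e)`; `x` is a dart at `v` in a pentagon. (1) Backwards: the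
darts `r⁻¹ e, r⁻² e, ...` reach `x`, so there is a smallest `k` such that `e1 = r⁻ᵏ e` is in a pentagon. For
`j < k` the dart `y = r⁻ʲ e` is in a face of length two, `φ (φ y) = y`; with `y' = r⁻¹ y` we have
`φ (ι y') = y`, so `φ y = ι y'` and `t (ι y') = t (φ y) = t (ι y)`. So all these darts go from `v` to `w`,
in particular `e1`. (2) Forwards: let `k` be smallest such that `ι (r^k e)` is in a pentagon (it
exists: `r⁻¹ x` is such a dart, `φ (ι (r⁻¹ x)) = x`). For `j < k`, `y = r^j e`: `φ (ι y) = r y`, and the face of
`ι y` has length two, so `φ (r y) = ι y` and `t (ι (r y)) = t (φ (r y)) = t (ι y)`. So `r^k e` goes from `v` to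
`w`; `e2 = ι (r^k e)`. (3) Suppose `e1`, `e2` are in the same pentagon. `φ e1` and `e2` start at `w`, `φ e2` and
`e1` start at `v`, so by `FInj` `φ e1 = e2`, `φ e2 = e1`, and the face has length two, contradiction. -/
def StBc : Prop :=
  ∀ (V D : Type) [Finite D] (M : PMap V D), FInj M →
    (∀ d, Function.minimalPeriod M.φ d = 2 ∨ Function.minimalPeriod M.φ d = 5) →
    ∀ e x, M.t x = M.t e → Odd (Function.minimalPeriod M.φ x) →
    ∃ e1 e2, M.t e1 = M.t e ∧ M.t (M.ι e1) = M.t (M.ι e) ∧ Odd (Function.minimalPeriod M.φ e1) ∧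
      M.t e2 = M.t (M.ι e) ∧ M.t (M.ι e2) = M.t e ∧ Odd (Function.minimalPeriod M.φ e2) ∧
      ¬ M.φ.SameCycle e1 e2

/-! ### Module BA (the set `W` if no corner can be folded; 120-180 lines)

PROOF. Choose `O' ⊆ O` with exactly one element in every pentagon (odd face) and all elements in
pentagons. For a vertex `v` let `N v` be the set of the `o ∈ O'` such that the face of `o` contains `v`
(contains a dart starting at `v`).
CASE A: every `N v` has at most two elements. For every dart `e` from `v` to `w` we have `N v = N w`: if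
there is a pentagon at `v` or at `w` then `StBc` (for `e` or `M.ι e`) gives two different pentagons which
contain both `v` and `w` (`e1`, `φ e1`, `e2`, `φ e2`), so `N v` and `N w` are both equal to this set of two
elements; otherwise both are empty. By connectedness `N` is constant; `o ∈ N (t o)`, so `N v = O'` for
all `v`: the first alternative for any `p`.
CASE B: `N p` has at least three elements for some `p`. If `N p = O'`: first alternative. Otherwise
`O' = N p ∪ {o4}`, `o4 ∉ N p`. Let `v = t o4`, `v' = t (ι o4) = t (φ o4)`. `StBc` (`e = x = o4`) gives two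
different pentagons containing `v` and `v'`; one of them is not the face of `o4`, so it is the face of an
element of `N p` and contains a dart `g` at `p`. The five vertices of this face are
`p = t g, t (φ g), ..., t (φ^4 g)`, different by `FInj`, and `v ≠ v'`, both different from `p` (`p` is not in the
face of `o4`), are among them. `v`, `v'` are adjacent, so by `OG` they are not both adjacent to `p`: not
both in `{t (φ g), t (φ^4 g)}`. If one of them is `t (φ^2 g)`: second alternative for `d = g`. If one of
them is `t (φ^3 g)`: second alternative for `d = φ^3 g` (then `t (φ (φ d)) = t g = p`). The faces of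
elements of `N p` contain `p`, the face of `o4` contains `v` and `v'`. -/
def StBa : Prop :=
  ∀ (V D : Type) [Nonempty V] [Finite D] (M : PMap V D) (O : Finset D), Conn M → OG M → FInj M →
    (∀ d, Function.minimalPeriod M.φ d = 2 ∨ Function.minimalPeriod M.φ d = 5) →
    OddO M.φ 4 O →
    (∃ p : V, ∀ d, Odd (Function.minimalPeriod M.φ d) → ∃ e, M.φ.SameCycle d e ∧ M.t e = p) ∨
    ∃ g, M.t g ≠ M.t (M.φ (M.φ g)) ∧ ∀ d, Odd (Function.minimalPeriod M.φ d) →
      ∃ e, M.φ.SameCycle d e ∧ (M.t e = M.t g ∨ M.t e = M.t (M.φ (M.φ g)))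

/-! ### Module SV (one vertex in all odd faces; 20-40 lines)

PROOF. `r' = M.r`; replace every `o ∈ O` whose face contains a dart at `p` by such a dart, and
remove the other elements of `O`. -/
def StSv : Prop :=
  ∀ (V D : Type) [Finite D] (M : PMap V D) (k : ℕ) (p : V), (∃ O, OddO M.φ k O) →
    (∀ d, Odd (Function.minimalPeriod M.φ d) → ∃ e, M.φ.SameCycle d e ∧ M.t e = p) →
    Cl M k {p}

/-- Module EX (existence of `W`; 80-120 lines).
PROOF. Induction on `n`. If `UF M` fails there is a `d` with `t d ≠ t (φ (φ d))` without walk of length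
three; `fold M d h` has less vertices and satisfies the hypotheses (`StFo`, `StFc`, `StFt`), so there is a
`W1`, and `W = pr ⁻¹' W1` works (`StLi`; independent since `(fold M d h).t e = pr (M.t e)`). Otherwise
`StFj`, `StKz`, `StBa`. First alternative: `W = {p}` (`StSv`, no loops). Second alternative: `M1 = fold M g h`;
every odd face of `M1` contains a dart starting at `x = pr (t g)`: by `StFo` it is (without `g`, `φ g`) an odd
face of `M`, which contains a dart at `t g` or at `t (φ (φ g))`, and if this dart is `g` or `φ g` itself then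
`φ (φ g)` is a dart of this face of `M1` which starts at `t (φ (φ g))` (it is different from `g` and `φ g`).
So `Cl M1 4 {x}` (`StSv`) and `Cl M 4 (pr ⁻¹' {x})` (`StLi`); `pr ⁻¹' {x} = {t g, t (φ (φ g))}` is independent
by `OG` (no loops; an edge between them forms a triangle with `g`, `φ g`). -/
def StEx : Prop :=
  ∀ (n : ℕ) (V D : Type) [Finite V] [Nonempty V] [Finite D] (M : PMap V D), Nat.card V ≤ n →
    Conn M → OG M → (∃ O, OddO M.φ 4 O) →
    ∃ W : Set V, (∀ d, M.t d ∈ W → M.t (M.ι d) ∉ W) ∧ Cl M 4 W

/-! ### Module CH (the potential; 120-180 lines)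

PROOF. Let `r'`, `O` be the data of `Cl`, `φ' = r' * ι` (`φ' d = r' (ι d)`). Choose `O' ⊆ O` with exactly
one element in every odd cycle of `φ'` and no element in the even ones; so for every `d` the number of the
`j < minimalPeriod φ' d` with `φ'^(j+1) d ∈ O'` is congruent to `minimalPeriod φ' d` modulo 2. `|O'|` is even:
`|O'|` is congruent to the sum of the lengths of the cycles, the number of all darts, which is even
(`ι` has no fixed point). Put `s e = 1` if `r' e ∈ O'`, else `0`. There is a potential `α` with
`α (r' d) = α d + s d` (`Pool.Agent.Helper64.OF.hPP`, statement `StPP`): the sum of `s` over a cycle of `r'`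
is zero if the cycle consists of darts not at `W` (elements of `O'` are darts at `W`, and `r'` maps the
darts at `W` to darts at `W`, since it maps the others to the others), and it is `|O'|` for the cycle
of all darts at `W`. There is a potential `γ` with `γ (φ' d) = γ d + 1 + s (ι d)` (again `StPP`: the sum over
a cycle of `φ'` is its length plus the number of its elements in `O'`, since `s (ι d) = 1` iff
`φ' d ∈ O'`). `Pool.Agent.Helper64.OF.coh` (with `a = s`, `b = 1`) gives `q` with `q (r' d) = q d + s d` and
`q (ι d) = q d + 1`. `q (r' d) ≠ q d` iff `r' d ∈ O'`; these are `|O'| ≤ k` darts, all at `W`. -/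
def StCh : Prop :=
  ∀ (V D : Type) [Finite D] (M : PMap V D) (k : ℕ) (W : Set V), Cl M k W →
    ∃ (r' : Perm D) (q : D → ZMod 2), Pl r' M.ι ∧ (∀ d, M.t d ∉ W → r' d = M.r d) ∧
      (∀ d d', M.t d ∈ W → M.t d' ∈ W → r'.SameCycle d d') ∧
      (∀ d, q (M.ι d) = q d + 1) ∧ (∀ d, q (r' d) ≠ q d → M.t d ∈ W) ∧
      {d | q (r' d) ≠ q d}.ncard ≤ k

/-- the simple graph on `R` and one more vertex `none`, which is adjacent to the vertices of `R` with a
neighbour in `W` -/
def HG {V : Type} (G : SimpleGraph V) (W : Set V) (R : Finset V) :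
    SimpleGraph (Option {v : V // v ∈ R}) where
  Adj x y := match x, y with
    | some u, some v => G.Adj u.1 v.1
    | some u, none => ∃ w ∈ W, G.Adj u.1 w
    | none, some v => ∃ w ∈ W, G.Adj v.1 w
    | none, none => False
  symm := ⟨by
    rintro (_ | u) (_ | v) h
    · exact h
    · exact h
    · exact h
    · exact SimpleGraph.Adj.symm h⟩
  loopless := ⟨by
    rintro (_ | u) h
    · exact h
    · exact G.loopless.irrefl _ h⟩

/-! ### Module C1 (the simple plane graph on `R` and the merged vertex; 120-180 lines)

PROOF. Let `V0 = {v // v ∉ W} ⊕ Unit` and `M' : PMap V0 G.Dart` the map with rotation `r'`, edge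
involution `SimpleGraph.Dart.symm`, and `t d` the starting vertex if it is not in `W` and the extra
vertex otherwise. (`t_r`: `r'` maps the darts not at `W` to darts not at `W`, hence, by finiteness, the
darts at `W` to darts at `W`; `trans` from the hypotheses, `r'` and `R.r` agree at a vertex not in `W`.) For `z ∈ R` with a neighbour in `W` choose one. The darts
of `HG G W R` are mapped to darts of `G` by `c`: `(some u, some v)` to `(u, v)`, `(some z, none)` to
`(z, g z)`, `(none, some z)` to `(g z, z)`. `PMap.exists_rot` (PM/Rot.lean) gives the rotation system `R'`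
with `c (R'.r d) = (r'^(n+1)) (c d)` for some `n`, such that `(r'^(j+1)) (c d)` is not in the range of `c` for
`j < n`. Let `s d = q (c (R'.r d)) + q (c d)`. If `s d ≠ 0` there is a `j ≤ n` such that `q` changes from
`e = (r'^j) (c d)` to `r' e`; choose it. Different `d`, `d'` have different `e`: if
`(r'^j) (c d) = (r'^j') (c d')`, `j ≤ j'`, then `c d = (r'^(j'-j)) (c d')`, and if `j < j'` this contradicts
the choice of `n` for `d'`; so `j = j'` and `d = d'`. So at most `k` darts `d` have `s d ≠ 0`; let `O` be the set
of the `d.symm` for these `d`. For the face permutation `φ d = R'.r d.symm`: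
`q (c (φ d)) = q (c d.symm) + s d.symm = q (c d) + 1 + s d.symm`; summing over an odd cycle gives a `d` in it
with `s d.symm ≠ 0`, so `d ∈ O`. -/
def StC1 : Prop :=
  ∀ (V : Type) [Finite V] (G : SimpleGraph V) (R : Rot G) (k : ℕ) (W : Set V) (r' : Perm G.Dart)
    (q : G.Dart → ZMod 2), (∀ a ∈ W, ∀ b ∈ W, ¬ G.Adj a b) →
    Pl r' SimpleGraph.Dart.symm → (∀ d : G.Dart, d.fst ∉ W → r' d = R.r d) →
    (∀ d d' : G.Dart, d.fst ∈ W → d'.fst ∈ W → r'.SameCycle d d') →
    (∀ d : G.Dart, q d.symm = q d + 1) → {d : G.Dart | q (r' d) ≠ q d}.ncard ≤ k →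
    ∀ S : Finset V, (∀ v ∈ S, v ∉ W) →
    ∃ (R' : Rot (HG G W S)) (O : Finset (HG G W S).Dart), OddO R'.φ k O

/-! ### Module C2 (Euler bound; 100-150 lines)

PROOF. As module FACE of project OC (`Pool.Agent.Helper15.OC.FACE`) or module EC of HY
(`Pool.Agent.Helper40.HY.EC`): in a connected simple graph with at least three vertices every face has
length at least three (length 1: loop; length 2: both ends of the dart have degree one), so an even face
has length at least four. There are at most `k` odd faces (different odd faces contain different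
elements of `O`). So `2 e = ∑ lengths ≥ 4 f - k`, and Euler's formula `n - e + f = 2` (`StEul` of PM) gives
`2 e ≤ 4 n - 8 + k`. -/
def StC2 : Prop :=
  ∀ (W : Type) [Fintype W] (H : SimpleGraph W) (R : Rot H) (k : ℕ) (O : Finset H.Dart),
    H.Connected → 3 ≤ Fintype.card W → OddO R.φ k O →
    2 * eN H Finset.univ + 8 ≤ 4 * Fintype.card W + k

/-! ### Module C3 (the inequality; 100-150 lines)

PROOF. From `StC2`, `StEub`, `StSub`, `StCnt` of HY. Strong induction on `|S|`. The graph
`H = HG G W S` has `|S| + 1` vertices and `e(H) = e(S) + |N|` edges, `N = {v ∈ S | v has a neighbour in W}`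
(only `e(S) + |N| ≤ e(H)` is needed: an injection of the edges of `G[S]` and the elements of `N` into
the edges of `H`). If `H` is connected and `|S| ≥ 2`: `StC2` gives `2 e(H) + 8 ≤ 4 (|S| + 1) + 4`. If
`|S| ≤ 1` the claim is clear. If `H` is not connected there is a nonempty `A ⊆ S` without elements of
`N` and without edges between `A` and `S \ A` (the vertices of `S` not connected with `none` in `H`).
Then `e(S) = e(A) + e(S \ A)` and the claim follows from the one for `S \ A` and from `e(A) ≤ 2 |A|`
(`StEub` for `G.induce A` if `|A| ≥ 3`, `e(A) ≤ 1` if `|A| ≤ 2`; `StCnt (4)`). -/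
def StC3 : Prop :=
  ∀ (V : Type) [Finite V] (G : SimpleGraph V) (W : Set V), Planar G → TF G →
    (∀ S : Finset V, (∀ v ∈ S, v ∉ W) →
      ∃ (R' : Rot (HG G W S)) (O : Finset (HG G W S).Dart), OddO R'.φ 4 O) →
    ∀ S : Finset V, (∀ v ∈ S, v ∉ W) →
      eN G S + {v : V | v ∈ S ∧ ∃ w ∈ W, G.Adj v w}.ncard ≤ 2 * S.card

/-- Module CO (colouring; 40-60 lines). PROOF. From `StLc` of HY with `R` the complement of `W`,
`w v = 1` if `v` has a neighbour in `W` and `0` otherwise. Give the vertices of `W` the colour of `A`, and the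
others the colours from `StLc` for the lists `L v \ A` if `v` has a neighbour in `W` and `L v` otherwise
(`|L v| = 3`). -/
def StCo : Prop :=
  ∀ (V : Type) [Finite V] (G : SimpleGraph V) (W : Set V) (p : V → Bool),
    (∀ a ∈ W, ∀ b ∈ W, ¬ G.Adj a b) → (∀ u v, u ∉ W → v ∉ W → G.Adj u v → p u ≠ p v) →
    (∀ S : Finset V, (∀ v ∈ S, v ∉ W) →
      eN G S + {v : V | v ∈ S ∧ ∃ w ∈ W, G.Adj v w}.ncard ≤ 2 * S.card) →
    ∀ (L : V → Finset ℕ) (A : Finset ℕ), (∀ v, (L v ∩ A).card = 1 ∧ (L v \ A).card = 2) →
    ∃ c : V → ℕ, (∀ v, c v ∈ L v) ∧ ∀ u v, G.Adj u v → c u ≠ c v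

/-- Module FI (assembly; 60-100 lines). PROOF. `M = R.map` is connected and satisfies `OG`. `StEx` gives
`W` (independent in `G`), `StCh` gives `r'`, `q`; `p v` is determined by `q d` for the darts `d` with
`d.fst = v` (for `v ∉ W` the function `q` is constant on these darts, since `R.r d = r' d` and
`q (r' d) = q d`; choose a dart if there is one), and it is proper outside `W` since
`q d.symm = q d + 1`. `StC1`, `StC3`, `StCo`. -/
def StFi : Prop :=
  ∀ (V : Type) [Finite V] (G : SimpleGraph V) (R : Rot G) (O : Finset G.Dart), G.Connected →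
    TF G → OddO R.φ 4 O →
    ∀ (L : V → Finset ℕ) (A : Finset ℕ), (∀ v, (L v ∩ A).card = 1 ∧ (L v \ A).card = 2) →
    ∃ c : V → ℕ, (∀ v, c v ∈ L v) ∧ ∀ u v, G.Adj u v → c u ≠ c v

end Pool.Agent.Helper77.OF4
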